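import Pool.Agent.Run7.h327.Stab.Core

/-!
# Counting lines of stabilizer functions, and integral vectors in a small subspace
-/

open Module

namespace Run7.h327.Stab

section

variable {E : Type*} [AddCommGroup E] [Module (ZMod 2) E] [FiniteDimensional (ZMod 2) E]

/-- Generators and eigenvalues of a maximal set of Pauli symmetries. -/
abbrev Dat (E : Type*) [AddCommGroup E] [Module (ZMod 2) E] :=
  Fin (finrank (ZMod 2) E) → (E × Dual (ZMod 2) E) × Fin 4

/-- `ψ` has the symmetries recorded in `D`. -/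
def Rel (ψ : E → ℂ) (D : Dat E) : Prop :=
  LinearIndependent (ZMod 2) (fun j => (D j).1) ∧
    ∀ j x, ψ (x + (D j).1.1) = (Complex.I ^ ((D j).2 : ℕ) * sg ((D j).1.2 x)) • ψ x

lemma fourth {c : ℂ} (h : c ^ 4 = 1) : ∃ k : Fin 4, c = Complex.I ^ (k : ℕ) := by
  have h1 : (c - 1) * (c + 1) * ((c - Complex.I) * (c + Complex.I)) = 0 := by
    have := Complex.I_sq
    linear_combination h - (c ^ 2 - 1) * this
  rcases mul_eq_zero.1 h1 with h2 | h2
  · rcases mul_eq_zero.1 h2 with h3 | h3
    · exact ⟨0, by simpa using sub_eq_zero.1 h3⟩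
    · refine ⟨2, ?_⟩
      have : c = -1 := eq_neg_of_add_eq_zero_left h3
      simp [this]
  · rcases mul_eq_zero.1 h2 with h3 | h3
    · exact ⟨1, by simpa using sub_eq_zero.1 h3⟩
    · refine ⟨3, ?_⟩
      have : c = -Complex.I := eq_neg_of_add_eq_zero_left h3
      rw [this]
      show _ = Complex.I ^ 3
      rw [Complex.I_pow_three]

omit [FiniteDimensional (ZMod 2) E] in
lemma exists_dat {ψ : E → ℂ} (h : Stb ψ) (h0 : ψ ≠ 0) : ∃ D : Dat E, Rel ψ D := by
  obtain ⟨f, hf⟩ := exists_linearIndependent_of_le_finrank h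
  have hc : ∀ j, ∃ k : Fin 4, ∀ x, ψ (x + (f j).1.1)
      = (Complex.I ^ (k : ℕ) * sg ((f j).1.2 x)) • ψ x := by
    intro j
    obtain ⟨⟨⟨a, β⟩, hg⟩, hj⟩ : ∃ g, g = f j := ⟨_, rfl⟩
    rw [← hj]
    simp only
    obtain ⟨c, hc⟩ := mem_G.1 hg
    simp only [smul_eq_mul] at hc ⊢
    have h4 : c ^ 4 = 1 := by
      obtain ⟨x, hx⟩ := Function.ne_iff.1 h0
      have e1 := hc (x + a)
      rw [add_assoc, add_self2, add_zero, hc x, map_add, sg_add] at e1
      have e2 : c ^ 2 * sg (β a) = 1 := by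
        have h5 : (c ^ 2 * sg (β a) * (sg (β x) * sg (β x)) - 1) * ψ x = 0 := by
          linear_combination -e1
        rw [sg_sq, mul_one] at h5
        rcases mul_eq_zero.1 h5 with h6 | h6
        · exact sub_eq_zero.1 h6
        · exact absurd h6 hx
      have e3 := sg_sq (β a)
      linear_combination (c ^ 2 * sg (β a) + 1) * e2 - c ^ 4 * e3
    obtain ⟨k, rfl⟩ := fourth h4
    exact ⟨k, hc⟩
  choose k hk using hc
  refine ⟨fun j => ((f j).1, k j), ?_, hk⟩
  exact hf.map' (G ψ).subtype (Submodule.ker_subtype _)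

lemma rel_unique {ψ φ : E → ℂ} {D : Dat E} (hψ : Rel ψ D) (hφ : Rel φ D) (h0 : ψ ≠ 0) :
    ∃ c : ℂ, φ = c • ψ := by
  obtain ⟨x₀, hx₀⟩ := Function.ne_iff.1 h0
  let Ψ : E → ℂ × ℂ := fun x => (ψ x, φ x)
  have hG : ∀ j, (D j).1 ∈ G Ψ := by
    intro j
    refine mem_G.2 ⟨Complex.I ^ ((D j).2 : ℕ), fun x => ?_⟩
    have e1 := hψ.2 j x
    have e2 := hφ.2 j x
    simp only [Ψ, e1, e2, Prod.smul_mk]
  have hS : Stb Ψ := by
    have hli : LinearIndependent (ZMod 2) (fun j => (⟨(D j).1, hG j⟩ : G Ψ)) := by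
      apply LinearIndependent.of_comp (G Ψ).subtype
      exact hψ.1
    have := hli.fintype_card_le_finrank
    rw [Fintype.card_fin] at this
    exact this
  have hx₀' : Ψ x₀ ≠ 0 := fun h => hx₀ (congrArg Prod.fst h)
  refine ⟨φ x₀ / ψ x₀, ?_⟩
  funext x
  obtain ⟨c, hc⟩ := stb_line hS hx₀' x
  have e1 : ψ x = c * ψ x₀ := congrArg Prod.fst hc
  have e2 : φ x = c * φ x₀ := congrArg Prod.snd hc
  simp only [Pi.smul_apply, smul_eq_mul]
  rw [e1, e2]
  have : ψ x₀ ≠ 0 := hx₀
  field_simp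

end

/-- Integral vectors that are linearly independent over `ℤ` are so over `ℂ`. -/
lemma li_cast {X ι : Type*} [Fintype ι] {b : ι → (X → ℤ)} (hb : LinearIndependent ℤ b) :
    LinearIndependent ℂ (fun i => (fun x => (b i x : ℂ) : X → ℂ)) := by
  classical
  rw [Fintype.linearIndependent_iff]
  intro c hc i₀
  by_contra hne
  obtain ⟨φ, hφ⟩ : ∃ φ : Dual ℚ ℂ, φ (c i₀) ≠ 0 := by
    by_contra hcon
    push Not at hcon
    exact hne ((Module.forall_dual_apply_eq_zero_iff ℚ (c i₀)).1 hcon)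
  have h1 : ∀ x, ∑ i, φ (c i) * (b i x : ℚ) = 0 := by
    intro x
    have e1 := congrFun hc x
    simp only [Finset.sum_apply, Pi.smul_apply, smul_eq_mul, Pi.zero_apply] at e1
    have e2 := congrArg φ e1
    rw [map_sum, map_zero] at e2
    rw [← e2]
    refine Finset.sum_congr rfl fun i _ => ?_
    have : c i * (b i x : ℂ) = ((b i x : ℤ) : ℚ) • c i := by
      rw [mul_comm]
      simp [Rat.smul_def]
    rw [this, map_smul, smul_eq_mul, mul_comm]
  -- clear denominators
  obtain ⟨N, hN⟩ : ∃ N : ℤ, N ≠ 0 ∧ ∀ i, ∃ k : ℤ, (N : ℚ) * φ (c i) = k := by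
    refine ⟨∏ i, ((φ (c i)).den : ℤ), ?_, ?_⟩
    · exact Finset.prod_ne_zero_iff.2 fun i _ => by exact_mod_cast (φ (c i)).den_nz
    · intro i
      refine ⟨(∏ j ∈ Finset.univ.erase i, ((φ (c j)).den : ℤ)) * (φ (c i)).num, ?_⟩
      rw [← Finset.mul_prod_erase _ _ (Finset.mem_univ i)]
      push_cast
      have h5 : ((φ (c i)).den : ℚ) * φ (c i) = (φ (c i)).num := by
        rw [mul_comm]; exact Rat.mul_den_eq_num _
      linear_combination (∏ j ∈ Finset.univ.erase i, ((φ (c j)).den : ℚ)) * h5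
  obtain ⟨hN0, hN⟩ := hN
  choose k hk using hN
  have h2 : ∑ i, k i • b i = 0 := by
    funext x
    have e1 : (∑ i, (k i : ℚ) * (b i x : ℚ)) = 0 := by
      have := h1 x
      have e2 : ∑ i, (k i : ℚ) * (b i x : ℚ) = N * ∑ i, φ (c i) * (b i x : ℚ) := by
        rw [Finset.mul_sum]
        refine Finset.sum_congr rfl fun i _ => ?_
        rw [← hk i]; ring
      rw [e2, this, mul_zero]
    simp only [Finset.sum_apply, Pi.smul_apply, smul_eq_mul, Pi.zero_apply]
    exact_mod_cast e1
  have h3 := (Fintype.linearIndependent_iff.1 hb) k h2 i₀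
  have h4 := hk i₀
  rw [h3] at h4
  have : (N : ℚ) * φ (c i₀) ≠ 0 := mul_ne_zero (by exact_mod_cast hN0) hφ
  exact this (by rw [h4]; simp)

/-- At most `4 ^ R` residue classes modulo `4` are realised by integral vectors of a complex
subspace of dimension at most `R`. -/
theorem card_mod_four {X A : Type*} [Fintype X] [Fintype A] (W : Submodule ℂ (X → ℂ)) (R : ℕ)
    (hW : finrank ℂ W ≤ R) (χ : A → (X → ℤ)) (hχ : ∀ A, (fun x => (χ A x : ℂ)) ∈ W)
    (hinj : ∀ A B, (∀ x, χ A x ≡ χ B x [ZMOD 4]) → A = B) : Fintype.card A ≤ 4 ^ R := by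
  classical
  let M : Submodule ℤ (X → ℤ) :=
    { carrier := {w | (fun x => (w x : ℂ)) ∈ W}
      add_mem' := by
        intro v w hv hw
        have h := W.add_mem hv hw
        have e : (fun x => (((v + w) x : ℤ) : ℂ)) = (fun x => (v x : ℂ)) + fun x => (w x : ℂ) := by
          funext x; simp
        show (fun x => (((v + w) x : ℤ) : ℂ)) ∈ W
        rw [e]; exact h
      zero_mem' := by
        have e : (fun x => (((0 : X → ℤ) x : ℤ) : ℂ)) = 0 := by
          funext x; simp
        show (fun x => (((0 : X → ℤ) x : ℤ) : ℂ)) ∈ W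
        rw [e]; exact W.zero_mem
      smul_mem' := by
        intro k w hw
        have h := W.smul_mem (k : ℂ) hw
        have e : (fun x => (((k • w) x : ℤ) : ℂ)) = (k : ℂ) • fun x => (w x : ℂ) := by
          funext x; simp
        show (fun x => (((k • w) x : ℤ) : ℂ)) ∈ W
        rw [e]; exact h }
  let b := Module.Free.chooseBasis ℤ M
  let ι := Module.Free.ChooseBasisIndex ℤ M
  have hli : LinearIndependent ℤ (fun i : ι => (b i : X → ℤ)) :=
    b.linearIndependent.map' M.subtype (Submodule.ker_subtype _)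
  have hli2 := li_cast hli
  have hcard : Fintype.card ι ≤ R := by
    refine le_trans ?_ hW
    have hli3 : LinearIndependent ℂ
        (fun i : ι => (⟨(fun x => ((b i : X → ℤ) x : ℂ)), (b i).2⟩ : W)) := by
      apply LinearIndependent.of_comp W.subtype
      exact hli2
    exact hli3.fintype_card_le_finrank
  let w : A → M := fun A => ⟨χ A, hχ A⟩
  let F : A → (ι → ZMod 4) := fun A i => ((b.repr (w A) i : ℤ) : ZMod 4)
  have hF : Function.Injective F := by
    intro A B hAB
    apply hinj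
    intro x
    have h1 : ∀ A, χ A x = ∑ i, b.repr (w A) i * (b i : X → ℤ) x := by
      intro A
      have e1 := b.sum_repr (w A)
      have e2 := congrArg (fun m : M => (m : X → ℤ) x) e1
      simp only [Submodule.coe_sum, Submodule.coe_smul, Finset.sum_apply, Pi.smul_apply,
        smul_eq_mul] at e2
      exact e2.symm
    apply (ZMod.intCast_eq_intCast_iff _ _ 4).1
    rw [h1, h1]
    push_cast
    refine Finset.sum_congr rfl fun i _ => ?_
    have := congrFun hAB i
    simp only [F] at this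
    rw [this]
  calc Fintype.card A ≤ Fintype.card (ι → ZMod 4) := Fintype.card_le_of_injective F hF
    _ = 4 ^ Fintype.card ι := by simp
    _ ≤ 4 ^ R := Nat.pow_le_pow_right (by norm_num) hcard

end Run7.h327.Stab
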