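import Pool.Agent.Run7.h327.Stab.Def
import Pool.Agent.Run7.h327.Stab.Count

/-!
# Stabilizer states have a full set of Pauli symmetries
-/

open Module Matrix

namespace Run7.h327.Stab

lemma sum_two (f : ZMod 2 → ℂ) : ∑ z : Fin 2, f z = f 0 + f 1 := Fin.sum_univ_two _

lemma P1_form {p : Matrix (Fin 2) (Fin 2) ℂ} (hp : p ∈ P1) :
    ∃ (c : ℂ) (α γ : ZMod 2), c ≠ 0 ∧
      ∀ x y : ZMod 2, p x y = if y = x + α then c * sg (γ * x) else 0 := by
  unfold P1 at hp
  induction hp using Submonoid.closure_induction with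
  | mem p hp =>
    rcases hp with rfl | rfl | rfl
    · refine ⟨1, 1, 0, one_ne_zero, ?_⟩
      intro x y
      rcases zm2 x with rfl | rfl <;> rcases zm2 y with rfl | rfl
      · show PX 0 0 = _; simp [PX]
      · show PX 0 1 = _; simp [PX, sg_zero]
      · show PX 1 0 = _; simp [PX, sg_zero, show (1 : ZMod 2) + 1 = 0 from rfl]
      · show PX 1 1 = _; simp [PX, show (1 : ZMod 2) + 1 = 0 from rfl]
    · refine ⟨-Complex.I, 1, 1, by simp, ?_⟩
      intro x y
      rcases zm2 x with rfl | rfl <;> rcases zm2 y with rfl | rfl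
      · show PY 0 0 = _; simp [PY]
      · show PY 0 1 = _; simp [PY, sg_zero]
      · show PY 1 0 = _; simp [PY, sg_one, show (1 : ZMod 2) + 1 = 0 from rfl]
      · show PY 1 1 = _; simp [PY, show (1 : ZMod 2) + 1 = 0 from rfl]
    · refine ⟨1, 0, 1, one_ne_zero, ?_⟩
      intro x y
      rcases zm2 x with rfl | rfl <;> rcases zm2 y with rfl | rfl
      · show PZ 0 0 = _; simp [PZ, sg_zero]
      · show PZ 0 1 = _; simp [PZ]
      · show PZ 1 0 = _; simp [PZ]
      · show PZ 1 1 = _; simp [PZ, sg_one]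
  | one =>
    refine ⟨1, 0, 0, one_ne_zero, ?_⟩
    intro x y
    rcases zm2 x with rfl | rfl <;> rcases zm2 y with rfl | rfl
    · show (1 : Matrix (Fin 2) (Fin 2) ℂ) 0 0 = _; simp [sg_zero]
    · show (1 : Matrix (Fin 2) (Fin 2) ℂ) 0 1 = _; simp
    · show (1 : Matrix (Fin 2) (Fin 2) ℂ) 1 0 = _; simp
    · show (1 : Matrix (Fin 2) (Fin 2) ℂ) 1 1 = _; simp [sg_zero]
  | mul p q _ _ hp hq =>
    obtain ⟨c, α, γ, hc, h⟩ := hp
    obtain ⟨c', α', γ', hc', h'⟩ := hq
    refine ⟨c * c' * sg (γ' * α), α + α', γ + γ',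
      mul_ne_zero (mul_ne_zero hc hc') (sg_ne _), ?_⟩
    intro x y
    have e1 : (p * q) x y = ∑ z : ZMod 2, p x z * q z y := rfl
    rw [e1]
    simp only [h, h', ite_mul, zero_mul, Finset.sum_ite_eq', Finset.mem_univ, if_true]
    rw [← add_assoc]
    split_ifs with hy
    · rw [mul_add, sg_add, add_mul, sg_add]; ring
    · ring

/-- The functional `x ↦ ∑ γ_j x_j`. -/
noncomputable def dotF {d : ℕ} (γ : Fin d → ZMod 2) : Dual (ZMod 2) (Fin d → ZMod 2) :=
  ∑ j, γ j • LinearMap.proj j

lemma dotF_apply {d : ℕ} (γ x : Fin d → ZMod 2) : dotF γ x = ∑ j, γ j * x j := by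
  simp [dotF]

lemma sg_sum {ι : Type*} (s : Finset ι) (f : ι → ZMod 2) :
    sg (∑ j ∈ s, f j) = ∏ j ∈ s, sg (f j) := by
  classical
  induction s using Finset.induction_on with
  | empty => simp [sg_zero]
  | insert a s ha ih => rw [Finset.sum_insert ha, Finset.prod_insert ha, sg_add, ih]

lemma pauli_form {d : ℕ} {M : Op d} (hM : M ∈ pauli d) :
    ∃ (c : ℂ) (α γ : Fin d → ZMod 2), c ≠ 0 ∧
      ∀ (φ : Vec d) (x : Fin d → ZMod 2), (M *ᵥ φ) x = c * sg (dotF γ x) * φ (x + α) := by
  classical
  obtain ⟨p, hp, rfl⟩ := hM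
  choose c α γ hc h using fun j => P1_form (hp j)
  refine ⟨∏ j, c j, α, γ, Finset.prod_ne_zero_iff.2 fun j _ => hc j, ?_⟩
  intro φ x
  have e1 : (tens p *ᵥ φ) x = ∑ y : Fin d → ZMod 2, (∏ j, p j (x j) (y j)) * φ y := rfl
  rw [e1]
  have e2 : ∀ y : Fin d → ZMod 2, (∏ j, p j (x j) (y j)) * φ y
      = if y = x + α then (∏ j, c j) * sg (dotF γ x) * φ y else 0 := by
    intro y
    have e3 : (∏ j, p j (x j) (y j))
        = ∏ j, if y j = x j + α j then c j * sg (γ j * x j) else 0 :=
      Finset.prod_congr rfl fun j _ => h j (x j) (y j)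
    rw [e3]
    split_ifs with hy
    · have e4 : (∏ j, if y j = x j + α j then c j * sg (γ j * x j) else 0)
          = ∏ j, c j * sg (γ j * x j) := by
        refine Finset.prod_congr rfl fun j _ => ?_
        rw [if_pos]
        rw [hy]; rfl
      rw [e4, Finset.prod_mul_distrib, dotF_apply, sg_sum]
    · obtain ⟨j, hj⟩ : ∃ j, y j ≠ x j + α j := by
        by_contra hcon
        push Not at hcon
        exact hy (funext hcon)
      rw [Finset.prod_eq_zero (Finset.mem_univ j) (if_neg hj), zero_mul]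
  simp only [e2]
  rw [Finset.sum_ite_eq']
  simp

lemma tens_mul {d : ℕ} (p q : Fin d → Matrix (Fin 2) (Fin 2) ℂ) :
    tens p * tens q = tens (fun j => p j * q j) := by
  classical
  ext x y
  rw [Matrix.mul_apply]
  simp only [tens, Matrix.of_apply]
  have : ∀ j, (p j * q j) (x j) (y j) = ∑ z, p j (x j) z * q j z (y j) := fun j => rfl
  simp only [this]
  rw [Finset.prod_univ_sum]
  simp only [Fintype.piFinset_univ]
  refine Finset.sum_congr rfl fun z _ => ?_
  rw [Finset.prod_mul_distrib]

lemma tens_one {d : ℕ} : tens (fun _ : Fin d => (1 : Matrix (Fin 2) (Fin 2) ℂ)) = 1 := by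
  classical
  ext x y
  simp only [tens, Matrix.of_apply, Matrix.one_apply]
  split_ifs with h
  · subst h; simp
  · obtain ⟨j, hj⟩ : ∃ j, x j ≠ y j := by
      by_contra hcon
      push Not at hcon
      exact h (funext hcon)
    exact Finset.prod_eq_zero (Finset.mem_univ j) (if_neg hj)

/-- The diagonal Pauli operator `Z^b`. -/
noncomputable def Zop {d : ℕ} (b : Fin d → ZMod 2) : Op d :=
  tens (fun j => if b j = 0 then 1 else PZ)

lemma Zop_mem {d : ℕ} (b : Fin d → ZMod 2) : Zop b ∈ pauli d := by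
  refine ⟨_, fun j => ?_, rfl⟩
  split_ifs
  · exact one_mem _
  · exact Submonoid.subset_closure (by simp)

lemma Zop_mulVec {d : ℕ} (b : Fin d → ZMod 2) (φ : Vec d) (x : Fin d → ZMod 2) :
    (Zop b *ᵥ φ) x = sg (dotF b x) * φ x := by
  classical
  have e1 : (Zop b *ᵥ φ) x
      = ∑ y : Fin d → ZMod 2, (∏ j, (if b j = 0 then (1 : Matrix (Fin 2) (Fin 2) ℂ) else PZ)
        (x j) (y j)) * φ y := rfl
  rw [e1]
  have key : ∀ (t u v : ZMod 2), (if t = 0 then (1 : Matrix (Fin 2) (Fin 2) ℂ) else PZ) u v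
      = if v = u then sg (t * u) else 0 := by
    intro t u v
    rcases zm2 t with rfl | rfl <;> rcases zm2 u with rfl | rfl <;> rcases zm2 v with rfl | rfl
    · show (1 : Matrix (Fin 2) (Fin 2) ℂ) 0 0 = _; simp [sg_zero]
    · show (1 : Matrix (Fin 2) (Fin 2) ℂ) 0 1 = _; simp
    · show (1 : Matrix (Fin 2) (Fin 2) ℂ) 1 0 = _; simp
    · show (1 : Matrix (Fin 2) (Fin 2) ℂ) 1 1 = _; simp [sg_zero]
    · show PZ 0 0 = _; simp [PZ, sg_zero]
    · show PZ 0 1 = _; simp [PZ]
    · show PZ 1 0 = _; simp [PZ]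
    · show PZ 1 1 = _; simp [PZ, sg_one]
  have e2 : ∀ y : Fin d → ZMod 2,
      (∏ j, (if b j = 0 then (1 : Matrix (Fin 2) (Fin 2) ℂ) else PZ) (x j) (y j)) * φ y
      = if y = x then sg (dotF b x) * φ y else 0 := by
    intro y
    simp only [key]
    split_ifs with hy
    · subst hy
      simp only [if_true]
      rw [dotF_apply, sg_sum]
    · obtain ⟨j, hj⟩ : ∃ j, y j ≠ x j := by
        by_contra hcon
        push Not at hcon
        exact hy (funext hcon)
      rw [Finset.prod_eq_zero (Finset.mem_univ j) (if_neg hj), zero_mul]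
  simp only [e2]
  rw [Finset.sum_ite_eq']
  simp

theorem stb_of_stab {d : ℕ} {ψ : Vec d} (hψ : ψ ∈ stab d) :
    Stb (E := Fin d → ZMod 2) (M := ℂ) ψ := by
  classical
  obtain ⟨U, ⟨hU, hC⟩, rfl⟩ := hψ
  have hU1 : star U * U = 1 := (Matrix.mem_unitaryGroup_iff'.1 hU)
  have hU2 : U * star U = 1 := (Matrix.mem_unitaryGroup_iff.1 hU)
  set ψ : Vec d := U *ᵥ Pi.single 0 1 with hψ
  have hM : ∀ b : Fin d → ZMod 2, U * Zop b * star U ∈ pauli d :=
    fun b => (hC _).1 (Zop_mem b)
  choose c α γ hc hform using fun b => pauli_form (hM b)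
  have hfix : ∀ b, (U * Zop b * star U) *ᵥ ψ = ψ := by
    intro b
    rw [hψ, Matrix.mulVec_mulVec, mul_assoc, hU1, mul_one, ← Matrix.mulVec_mulVec]
    congr 1
    funext x
    rw [show (Zop b *ᵥ Pi.single 0 1) x = sg (dotF b x) * (Pi.single 0 1 : Vec d) x from
      Zop_mulVec b _ x]
    by_cases hx : x = 0
    · subst hx
      have : dotF b (0 : Fin d → ZMod 2) = 0 := map_zero _
      rw [show dotF b (0 : Fin d → Fin 2) = 0 from this, sg_zero, one_mul]
    · rw [Pi.single_eq_of_ne hx, mul_zero]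
  let g : (Fin d → ZMod 2) → G (E := Fin d → ZMod 2) (M := ℂ) ψ := fun b =>
    ⟨(α b, dotF (γ b)), mem_G.2 ⟨(c b)⁻¹, fun x => by
      have e1 := hform b ψ x
      rw [hfix b] at e1
      have e2 := sg_sq (dotF (γ b) x)
      have e3 : (c b)⁻¹ * c b = 1 := inv_mul_cancel₀ (hc b)
      simp only [smul_eq_mul]
      rw [e1]
      linear_combination (-ψ (x + α b)) * (sg (dotF (γ b) x) * sg (dotF (γ b) x)) * e3
        - ψ (x + α b) * e2⟩⟩
  have hg : Function.Injective g := by
    intro b b' hbb
    have hα : α b = α b' := congrArg (fun p => p.1.1) hbb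
    have hγ : dotF (γ b) = dotF (γ b') := congrArg (fun p => p.1.2) hbb
    -- the two Pauli operators are proportional
    have e1 : ∀ φ : Vec d, (U * Zop b * star U) *ᵥ φ
        = (c b / c b') • ((U * Zop b' * star U) *ᵥ φ) := by
      intro φ
      funext x
      simp only [Pi.smul_apply, smul_eq_mul]
      rw [show ((U * Zop b * star U) *ᵥ φ) x = _ from hform b φ x,
        show ((U * Zop b' * star U) *ᵥ φ) x = _ from hform b' φ x, hα, hγ]
      have := hc b'
      field_simp
    have e2 : ∀ φ : Vec d, Zop b *ᵥ φ = (c b / c b') • (Zop b' *ᵥ φ) := by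
      intro φ
      have h1 := congrArg (fun v => star U *ᵥ v) (e1 (U *ᵥ φ))
      simp only [Matrix.mulVec_smul, Matrix.mulVec_mulVec] at h1
      have h2 : ∀ b : Fin d → ZMod 2, star U * (U * Zop b * star U * U) = Zop b := by
        intro b
        rw [mul_assoc (U * Zop b), hU1, mul_one, ← mul_assoc, hU1, one_mul]
      rw [h2, h2] at h1
      exact h1
    have e3 : ∀ x : Fin d → ZMod 2, sg (dotF b x) = (c b / c b') * sg (dotF b' x) := by
      intro x
      have h1 : (Zop b *ᵥ fun _ => 1) x = (c b / c b') * (Zop b' *ᵥ fun _ => 1) x :=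
        congrFun (e2 (fun _ => 1)) x
      rw [show (Zop b *ᵥ fun _ => 1) x = sg (dotF b x) * 1 from Zop_mulVec b _ x,
        show (Zop b' *ᵥ fun _ => 1) x = sg (dotF b' x) * 1 from Zop_mulVec b' _ x] at h1
      simpa using h1
    have e4 : c b / c b' = 1 := by
      have := e3 0
      rw [map_zero, map_zero, sg_zero, mul_one] at this
      exact this.symm
    funext j
    have e5 := e3 (Pi.single j 1)
    rw [e4, one_mul] at e5
    have e6 := sg_inj e5
    rw [dotF_apply, dotF_apply] at e6
    simpa [Pi.single_apply] using e6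
  have hfin : Fintype (G (E := Fin d → ZMod 2) (M := ℂ) ψ) := by
    have : Finite (Dual (ZMod 2) (Fin d → ZMod 2)) := Module.finite_of_finite (ZMod 2)
    exact Fintype.ofFinite _
  have h1 := Fintype.card_le_of_injective g hg
  rw [Module.card_eq_pow_finrank (K := ZMod 2) (V := G (E := Fin d → ZMod 2) (M := ℂ) ψ)] at h1
  rw [Fintype.card_fun, ZMod.card, Fintype.card_fin] at h1
  unfold Stb
  rw [Module.finrank_fin_fun]
  exact (Nat.pow_le_pow_iff_right (by norm_num)).1 h1

/-- Computational basis vectors are stabilizer states. -/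
lemma single_mem {d : ℕ} (x : Fin d → Fin 2) : (Pi.single x 1 : Vec d) ∈ stab d := by
  classical
  let q : Fin d → Matrix (Fin 2) (Fin 2) ℂ := fun j => if x j = 0 then 1 else PX
  have hq : ∀ j, q j ∈ P1 := by
    intro j
    dsimp only [q]
    split_ifs
    · exact one_mem _
    · exact Submonoid.subset_closure (by simp)
  have hX : PX * PX = 1 := by
    ext i j; fin_cases i <;> fin_cases j <;> simp [PX, Matrix.mul_apply]
  have hqq : ∀ j, q j * q j = 1 := by
    intro j
    dsimp only [q]
    split_ifs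
    · exact one_mul _
    · exact hX
  have hUU : tens q * tens q = 1 := by
    rw [tens_mul]
    simp only [hqq]
    exact tens_one
  have hstar : star (tens q) = tens q := by
    ext a b
    rw [Matrix.star_apply]
    simp only [tens, Matrix.of_apply]
    rw [star_prod]
    refine Finset.prod_congr rfl fun j _ => ?_
    have key : ∀ (t u v : Fin 2), star ((if t = 0 then (1 : Matrix (Fin 2) (Fin 2) ℂ) else PX) u v)
        = (if t = 0 then (1 : Matrix (Fin 2) (Fin 2) ℂ) else PX) v u := by
      intro t u v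
      fin_cases t <;> fin_cases u <;> fin_cases v <;> simp [PX]
    exact key _ _ _
  refine ⟨tens q, ⟨?_, ?_⟩, ?_⟩
  · rw [Matrix.mem_unitaryGroup_iff, hstar, hUU]
  · intro M
    rw [hstar]
    have hconj : ∀ M, M ∈ pauli d → tens q * M * tens q ∈ pauli d := by
      rintro _ ⟨p, hp, rfl⟩
      rw [tens_mul, tens_mul]
      exact ⟨_, fun j => mul_mem (mul_mem (hq j) (hp j)) (hq j), rfl⟩
    constructor
    · exact hconj M
    · intro h
      have h2 := hconj _ h
      have e : tens q * (tens q * M * tens q) * tens q = M := by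
        calc tens q * (tens q * M * tens q) * tens q
            = (tens q * tens q) * M * (tens q * tens q) := by simp only [mul_assoc]
          _ = M := by rw [hUU, one_mul, mul_one]
      rwa [e] at h2
  · funext y
    rw [Matrix.mulVec_single_one]
    simp only [Matrix.col_apply, tens, Matrix.of_apply]
    have key : ∀ (t u : Fin 2), (if t = 0 then (1 : Matrix (Fin 2) (Fin 2) ℂ) else PX) u 0
        = if u = t then 1 else 0 := by
      simp [Fin.forall_fin_two, PX]
    by_cases hy : y = x
    · subst hy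
      rw [Pi.single_eq_same]
      symm
      apply Finset.prod_eq_one
      intro j _
      have := key (y j) (y j)
      rw [if_pos rfl] at this
      exact this
    · rw [Pi.single_eq_of_ne hy]
      obtain ⟨j, hj⟩ : ∃ j, y j ≠ x j := by
        by_contra hcon
        push Not at hcon
        exact hy (funext hcon)
      symm
      apply Finset.prod_eq_zero (Finset.mem_univ j)
      have := key (x j) (y j)
      rw [if_neg hj] at this
      exact this

/-- Every vector is a combination of stabilizer states, so the rank is attained. -/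
lemma exists_decomp {d : ℕ} (T : Vec d) : ∃ (α : Fin (stabRank T) → ℂ)
    (s : Fin (stabRank T) → Vec d), (∀ i, s i ∈ stab d) ∧ T = ∑ i, α i • s i := by
  classical
  have hne : {r | ∃ (α : Fin r → ℂ) (s : Fin r → Vec d), (∀ i, s i ∈ stab d) ∧
      T = ∑ i, α i • s i}.Nonempty := by
    let e := Fintype.equivFin (Fin d → Fin 2)
    refine ⟨Fintype.card (Fin d → Fin 2), fun i => T (e.symm i),
      fun i => Pi.single (e.symm i) 1, fun i => single_mem _, ?_⟩
    rw [Equiv.sum_comp e.symm (fun x => T x • (Pi.single x 1 : Vec d))]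
    funext y
    simp [Finset.sum_apply, Pi.single_apply]
  exact Nat.sInf_mem hne

end Run7.h327.Stab
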