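import Pool.Agent.Run7.h327.Stab.Bridge

/-!
# Arbitrary Boolean matrices as products of copies of `e₀ + √2 e₁`
-/

open Module

namespace Run7.h327.Stab

/-- Gates. -/
abbrev J (m : ℕ) : Type := Finset (Fin m) ⊕ (Finset (Fin m) ⊕ Finset (Fin m))

/-- Inputs. -/
abbrev EE (m : ℕ) : Type := (Fin m → ZMod 2) × (Fin m → ZMod 2)

/-- Gate values. -/
abbrev FF (m : ℕ) : Type := J m → ZMod 2

/-- Affine functionals. -/
abbrev Aff (m : ℕ) : Type := ZMod 2 × Dual (ZMod 2) (EE m × FF m)

variable {m : ℕ}

/-- Evaluation of an affine functional. -/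
def ev (f : Aff m) (z : EE m × FF m) : ZMod 2 := f.1 + f.2 z

/-- The coordinate `y_i`. -/
def py (i : Fin m) : Dual (ZMod 2) (EE m × FF m) :=
  (LinearMap.proj i).comp ((LinearMap.fst (ZMod 2) _ _).comp (LinearMap.fst (ZMod 2) _ _))

/-- The coordinate `z_i`. -/
def pz (i : Fin m) : Dual (ZMod 2) (EE m × FF m) :=
  (LinearMap.proj i).comp ((LinearMap.snd (ZMod 2) _ _).comp (LinearMap.fst (ZMod 2) _ _))

/-- The value of the gate `j`. -/
def pa (j : J m) : Dual (ZMod 2) (EE m × FF m) :=
  (LinearMap.proj j).comp (LinearMap.snd (ZMod 2) _ _)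

lemma py_apply (i : Fin m) (z : EE m × FF m) : py i z = z.1.1 i := rfl
lemma pz_apply (i : Fin m) (z : EE m × FF m) : pz i z = z.1.2 i := rfl
lemma pa_apply (j : J m) (z : EE m × FF m) : pa j z = z.2 j := rfl

/-- First input of each gate. -/
def uA : J m → Aff m
  | Sum.inl I => if h : I.Nonempty then (0, py (I.min' h)) else (1, 0)
  | Sum.inr (Sum.inl I) => if h : I.Nonempty then (0, pz (I.min' h)) else (1, 0)
  | Sum.inr (Sum.inr I) => (0, pa (Sum.inl I))

/-- Second input of each gate. -/
def vA (A : Finset (Fin m) → Finset (Fin m) → ZMod 2) : J m → Aff m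
  | Sum.inl I => if h : I.Nonempty then (0, pa (Sum.inl (I.erase (I.min' h)))) else (1, 0)
  | Sum.inr (Sum.inl I) =>
      if h : I.Nonempty then (0, pa (Sum.inr (Sum.inl (I.erase (I.min' h))))) else (1, 0)
  | Sum.inr (Sum.inr I) => (0, ∑ K, A I K • pa (Sum.inr (Sum.inl K)))

/-- The correct gate values. -/
def star' (A : Finset (Fin m) → Finset (Fin m) → ZMod 2) (x : EE m) : FF m
  | Sum.inl I => ∏ i ∈ I, x.1 i
  | Sum.inr (Sum.inl I) => ∏ i ∈ I, x.2 i
  | Sum.inr (Sum.inr I) => (∏ i ∈ I, x.1 i) * ∑ K, A I K * ∏ i ∈ K, x.2 i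

lemma star_iff (A : Finset (Fin m) → Finset (Fin m) → ZMod 2) (x : EE m) (a : FF m) :
    (∀ j, a j = ev (uA j) (x, a) * ev (vA A j) (x, a)) ↔ a = star' A x := by
  constructor
  · intro h
    have h1 : ∀ I : Finset (Fin m), a (Sum.inl I) = ∏ i ∈ I, x.1 i := by
      intro I
      induction I using Finset.strongInduction with
      | H I ih =>
        rw [h (Sum.inl I)]
        simp only [uA, vA]
        split_ifs with hI
        · simp only [ev, py_apply, pa_apply, zero_add]
          rw [ih _ (Finset.erase_ssubset (I.min'_mem hI))]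
          exact Finset.mul_prod_erase _ _ (I.min'_mem hI)
        · rw [Finset.not_nonempty_iff_eq_empty] at hI
          subst hI
          simp [ev]
    have h2 : ∀ I : Finset (Fin m), a (Sum.inr (Sum.inl I)) = ∏ i ∈ I, x.2 i := by
      intro I
      induction I using Finset.strongInduction with
      | H I ih =>
        rw [h (Sum.inr (Sum.inl I))]
        simp only [uA, vA]
        split_ifs with hI
        · simp only [ev, pz_apply, pa_apply, zero_add]
          rw [ih _ (Finset.erase_ssubset (I.min'_mem hI))]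
          exact Finset.mul_prod_erase _ _ (I.min'_mem hI)
        · rw [Finset.not_nonempty_iff_eq_empty] at hI
          subst hI
          simp [ev]
    funext j
    rcases j with I | I | I
    · exact h1 I
    · exact h2 I
    · rw [h (Sum.inr (Sum.inr I))]
      simp only [uA, vA, ev, pa_apply, zero_add, h1, LinearMap.sum_apply, LinearMap.smul_apply,
        smul_eq_mul, h2, star']
  · rintro rfl
    intro j
    rcases j with I | I | I
    · simp only [uA, vA]
      split_ifs with hI
      · simp only [ev, py_apply, pa_apply, zero_add, star']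
        exact (Finset.mul_prod_erase _ _ (I.min'_mem hI)).symm
      · rw [Finset.not_nonempty_iff_eq_empty] at hI
        subst hI
        simp [ev, star']
    · simp only [uA, vA]
      split_ifs with hI
      · simp only [ev, pz_apply, pa_apply, zero_add, star']
        exact (Finset.mul_prod_erase _ _ (I.min'_mem hI)).symm
      · rw [Finset.not_nonempty_iff_eq_empty] at hI
        subst hI
        simp [ev, star']
    · simp only [uA, vA, ev, pa_apply, zero_add, LinearMap.sum_apply, LinearMap.smul_apply,
        smul_eq_mul, star']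

/-- The integer sign. -/
def sgZ (z : ZMod 2) : ℤ := if z = 0 then 1 else -1

lemma sgZ_cast (z : ZMod 2) : ((sgZ z : ℤ) : ℂ) = sg z := by
  unfold sgZ sg; split_ifs <;> simp

/-- The output functional. -/
def lamA : Dual (ZMod 2) (EE m × FF m) := ∑ I, pa (Sum.inr (Sum.inr I))

/-- The integral vector attached to `A`. -/
def chi (A : Finset (Fin m) → Finset (Fin m) → ZMod 2) (x : EE m) : ℤ :=
  ∑ a : FF m, sgZ (lamA (x, a)) *
    ∏ j, (if a j = ev (uA j) (x, a) * ev (vA A j) (x, a) then 1 else 4)

/-- The Boolean function computed. -/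
def fA (A : Finset (Fin m) → Finset (Fin m) → ZMod 2) (x : EE m) : ZMod 2 :=
  ∑ I, (∏ i ∈ I, x.1 i) * ∑ K, A I K * ∏ i ∈ K, x.2 i

lemma chi_mod (A : Finset (Fin m) → Finset (Fin m) → ZMod 2) (x : EE m) :
    ((chi A x : ℤ) : ZMod 4) = ((sgZ (fA A x) : ℤ) : ZMod 4) := by
  classical
  unfold chi
  push_cast
  have h1 : ∀ a : FF m, (∏ j, ((if a j = ev (uA j) (x, a) * ev (vA A j) (x, a)
      then 1 else 4 : ℤ) : ZMod 4)) = if a = star' A x then 1 else 0 := by
    intro a
    split_ifs with h
    · apply Finset.prod_eq_one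
      intro j _
      rw [if_pos ((star_iff A x a).2 h j)]
      simp
    · rw [← star_iff] at h
      push Not at h
      obtain ⟨j, hj⟩ := h
      apply Finset.prod_eq_zero (Finset.mem_univ j)
      rw [if_neg hj]
      rfl
  have h2 : ∀ a : FF m, (((sgZ (lamA (x, a)) : ℤ) : ZMod 4) *
      ∏ j, (((if a j = ev (uA j) (x, a) * ev (vA A j) (x, a) then 1 else 4 : ℤ)) : ZMod 4))
      = if a = star' A x then ((sgZ (lamA (x, a)) : ℤ) : ZMod 4) else 0 := by
    intro a
    rw [h1]; split_ifs <;> simp
  have h3 := Finset.sum_congr (rfl : (Finset.univ : Finset (FF m)) = Finset.univ)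
    (fun a _ => h2 a)
  push_cast at h3
  rw [h3, Finset.sum_ite_eq']
  simp only [Finset.mem_univ, if_true]
  congr 2
  simp [lamA, pa_apply, star', fA]

lemma sgZ_inj4 {s t : ZMod 2} (h : ((sgZ s : ℤ) : ZMod 4) = ((sgZ t : ℤ) : ZMod 4)) : s = t := by
  rcases zm2 s with rfl | rfl <;> rcases zm2 t with rfl | rfl
  · rfl
  · exfalso; revert h; decide
  · exfalso; revert h; decide
  · rfl

lemma fA_inj {A B : Finset (Fin m) → Finset (Fin m) → ZMod 2} (h : ∀ x, fA A x = fA B x) :
    A = B := by
  classical
  have key : ∀ n : ℕ, ∀ S T : Finset (Fin m), S.card + T.card = n → A S T = B S T := by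
    intro n
    induction n using Nat.strong_induction_on with
    | _ n ih =>
      intro S T hST
      let x : EE m := (fun i => if i ∈ S then 1 else 0, fun i => if i ∈ T then 1 else 0)
      have hp : ∀ (S I : Finset (Fin m)), (∏ i ∈ I, (if i ∈ S then (1 : ZMod 2) else 0))
          = if I ⊆ S then 1 else 0 := by
        intro S I
        rw [Finset.prod_ite_zero]
        simp [Finset.subset_iff]
      have h1 := h x
      have h2 : fA A x - fA B x = 0 := sub_eq_zero.2 h1
      have h3 : fA A x - fA B x = ∑ I, ∑ K, (if I ⊆ S then (1 : ZMod 2) else 0) *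
          ((A I K - B I K) * (if K ⊆ T then 1 else 0)) := by
        unfold fA
        rw [← Finset.sum_sub_distrib]
        refine Finset.sum_congr rfl fun I _ => ?_
        simp only [x, hp]
        rw [← mul_sub, ← Finset.sum_sub_distrib, Finset.mul_sum]
        refine Finset.sum_congr rfl fun K _ => ?_
        ring
      rw [h3, Finset.sum_eq_single S, Finset.sum_eq_single T] at h2
      · simpa [sub_eq_zero] using h2
      · intro K _ hK
        by_cases hKT : K ⊆ T
        · have hlt : K.card < T.card := Finset.card_lt_card (lt_of_le_of_ne hKT hK)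
          rw [ih (S.card + K.card) (by omega) S K rfl, sub_self]; simp
        · simp [hKT]
      · intro h; exact absurd (Finset.mem_univ _) h
      · intro I _ hI
        apply Finset.sum_eq_zero
        intro K _
        by_cases hIS : I ⊆ S
        · by_cases hKT : K ⊆ T
          · have hlt : I.card < S.card := Finset.card_lt_card (lt_of_le_of_ne hIS hI)
            have hle : K.card ≤ T.card := Finset.card_le_card hKT
            rw [ih (I.card + K.card) (by omega) I K rfl, sub_self]; simp
          · simp [hKT]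
        · simp [hIS]
      · intro h; exact absurd (Finset.mem_univ _) h
  funext S T
  exact key _ S T rfl

/-- The coordinates of `v = e₀ + √2 e₁`. -/
noncomputable def wt (z : ZMod 2) : ℂ := if z = 0 then 1 else (Real.sqrt 2 : ℂ)

lemma wt_sq (z : ZMod 2) : wt z * wt z = if z = 0 then 1 else 2 := by
  unfold wt
  split_ifs
  · ring
  · rw [← Complex.ofReal_mul, Real.mul_self_sqrt (by norm_num)]; norm_num

/-- The four affine functionals attached to a gate. -/
def cor (A : Finset (Fin m) → Finset (Fin m) → ZMod 2) (k : J m × (Fin 4 × Fin 2)) : Aff m :=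
  match k.2.1 with
  | 0 => (0, pa k.1)
  | 1 => ((uA k.1).1, pa k.1 + (uA k.1).2)
  | 2 => ((vA A k.1).1, pa k.1 + (vA A k.1).2)
  | 3 => ((uA k.1).1 + (vA A k.1).1 + 1, pa k.1 + (uA k.1).2 + (vA A k.1).2)

lemma gadget (a u v : ZMod 2) : (wt a * wt a) * (wt (u + a) * wt (u + a)) *
    (wt (v + a) * wt (v + a)) * (wt (u + v + 1 + a) * wt (u + v + 1 + a))
    = 2 * (if a = u * v then 1 else 4) := by
  simp only [wt_sq]
  rcases zm2 a with rfl | rfl <;> rcases zm2 u with rfl | rfl <;> rcases zm2 v with rfl | rfl <;>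
    simp [show (1 : ZMod 2) + 1 = 0 from rfl] <;> norm_num

lemma prod_cor (A : Finset (Fin m) → Finset (Fin m) → ZMod 2) (z : EE m × FF m) :
    ∏ k : J m × (Fin 4 × Fin 2), wt (ev (cor A k) z)
      = 2 ^ Fintype.card (J m) *
        ∏ j, (if z.2 j = ev (uA j) z * ev (vA A j) z then (1 : ℂ) else 4) := by
  rw [Fintype.prod_prod_type]
  have h : ∀ j : J m, ∏ q : Fin 4 × Fin 2, wt (ev (cor A (j, q)) z)
      = 2 * (if z.2 j = ev (uA j) z * ev (vA A j) z then (1 : ℂ) else 4) := by
    intro j
    rw [Fintype.prod_prod_type]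
    simp only [Fin.prod_univ_four, Fin.prod_univ_two, cor]
    have e0 : ev ((0, pa j) : Aff m) z = z.2 j := by simp [ev, pa_apply]
    have e1 : ev (((uA j).1, pa j + (uA j).2) : Aff m) z = ev (uA j) z + z.2 j := by
      simp only [ev, LinearMap.add_apply, pa_apply]; ring
    have e2 : ev (((vA A j).1, pa j + (vA A j).2) : Aff m) z = ev (vA A j) z + z.2 j := by
      simp only [ev, LinearMap.add_apply, pa_apply]; ring
    have e3 : ev (((uA j).1 + (vA A j).1 + 1, pa j + (uA j).2 + (vA A j).2) : Aff m) z
        = ev (uA j) z + ev (vA A j) z + 1 + z.2 j := by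
      simp only [ev, LinearMap.add_apply, pa_apply]; ring
    rw [e0, e1, e2, e3]
    exact gadget _ _ _
  simp only [h]
  rw [Finset.prod_mul_distrib, Finset.prod_const, Finset.card_univ]

end Run7.h327.Stab
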