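import Mathlib

/-!
# Pauli symmetries of functions on a vector space over the field with two elements
-/

open Module

namespace Run7.h327.Stab

/-- The sign `(-1)^z`. -/
noncomputable def sg (z : ZMod 2) : ℂ := if z = 0 then 1 else -1

lemma zm2 (z : ZMod 2) : z = 0 ∨ z = 1 := by
  revert z; decide

lemma sg_zero : sg 0 = 1 := by simp [sg]

lemma sg_one : sg 1 = -1 := by simp [sg]

lemma sg_add (z w : ZMod 2) : sg (z + w) = sg z * sg w := by
  rcases zm2 z with rfl | rfl <;> rcases zm2 w with rfl | rfl <;>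
    simp [sg_zero, sg_one, show (1 : ZMod 2) + 1 = 0 from rfl]

lemma sg_sq (z : ZMod 2) : sg z * sg z = 1 := by
  rcases zm2 z with rfl | rfl <;> simp [sg_zero, sg_one]

lemma sg_ne (z : ZMod 2) : sg z ≠ 0 := by
  rcases zm2 z with rfl | rfl <;> simp [sg_zero, sg_one]

lemma sg_eq_one {z : ZMod 2} (h : sg z = 1) : z = 0 := by
  rcases zm2 z with rfl | rfl
  · rfl
  · rw [sg_one] at h; norm_num at h

lemma sg_inj {z w : ZMod 2} (h : sg z = sg w) : z = w := by
  have : sg (z + w) = 1 := by rw [sg_add, h, sg_sq]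
  have h2 := sg_eq_one this
  have h3 : z = -w := eq_neg_of_add_eq_zero_left h2
  rw [h3]; exact ZMod.neg_eq_self_mod_two w

lemma add_self2 {E : Type*} [AddCommGroup E] [Module (ZMod 2) E] (x : E) : x + x = 0 := by
  have h : ((1 : ZMod 2) + 1) • x = 0 := by
    rw [show (1 : ZMod 2) + 1 = 0 from rfl, zero_smul]
  rwa [add_smul, one_smul] at h

section

variable {E : Type*} [AddCommGroup E] [Module (ZMod 2) E]
variable {M : Type*} [AddCommGroup M] [Module ℂ M]

/-- The group of (classes of) Pauli operators having `ψ` as an eigenvector. -/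
noncomputable def G (ψ : E → M) : Submodule (ZMod 2) (E × Dual (ZMod 2) E) where
  carrier := {g | ∃ c : ℂ, ∀ x, ψ (x + g.1) = (c * sg (g.2 x)) • ψ x}
  add_mem' := by
    rintro ⟨a, β⟩ ⟨a', β'⟩ ⟨c, hc⟩ ⟨c', hc'⟩
    refine ⟨c' * c * sg (β' a), fun x => ?_⟩
    simp only [Prod.mk_add_mk, LinearMap.add_apply] at *
    rw [← add_assoc, hc', hc, smul_smul, map_add, sg_add, sg_add]
    congr 1; ring
  zero_mem' := ⟨1, fun x => by simp [sg_zero]⟩
  smul_mem' := by
    rintro s ⟨a, β⟩ ⟨c, hc⟩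
    rcases zm2 s with rfl | rfl
    · exact ⟨1, fun x => by simp [sg_zero]⟩
    · exact ⟨c, fun x => by simpa using hc x⟩

lemma mem_G {ψ : E → M} {g : E × Dual (ZMod 2) E} :
    g ∈ G ψ ↔ ∃ c : ℂ, ∀ x, ψ (x + g.1) = (c * sg (g.2 x)) • ψ x := Iff.rfl

/-- `ψ` has as many Pauli symmetries as a stabilizer state (or is zero). -/
def Stb (ψ : E → M) : Prop := finrank (ZMod 2) E ≤ finrank (ZMod 2) (G ψ)

lemma coef_ne {ψ : E → M} (hψ : ψ ≠ 0) {a : E} {β : Dual (ZMod 2) E} {c : ℂ}
    (h : ∀ x, ψ (x + a) = (c * sg (β x)) • ψ x) : c ≠ 0 := by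
  rintro rfl
  apply hψ
  funext x
  have := h (x + a)
  rw [add_assoc, add_self2, add_zero] at this
  simpa using this

lemma stb_zero [FiniteDimensional (ZMod 2) E] : Stb (0 : E → M) := by
  unfold Stb
  have : G (0 : E → M) = ⊤ := by
    rw [eq_top_iff]
    intro g _
    exact ⟨0, fun x => by simp⟩
  rw [this, finrank_top, Module.finrank_prod]
  omega

end

section

variable {E : Type*} [AddCommGroup E] [Module (ZMod 2) E] [FiniteDimensional (ZMod 2) E]
variable {F : Type*} [AddCommGroup F] [Module (ZMod 2) F] [FiniteDimensional (ZMod 2) F]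
variable [Fintype F]
variable {M : Type*} [AddCommGroup M] [Module ℂ M]

/-- Summation over hidden variables preserves the class. -/
theorem stb_sum {ψ : E × F → M} (h : Stb ψ) : Stb (fun x => ∑ y, ψ (x, y)) := by
  classical
  by_cases h0 : (fun x => ∑ y, ψ (x, y)) = 0
  · rw [h0]; exact stb_zero
  set φ : E → M := fun x => ∑ y, ψ (x, y) with hφ
  have hψ0 : ψ ≠ 0 := by
    rintro rfl
    apply h0
    funext x; simp [hφ]
  -- the group of pure hidden shifts
  let K : Submodule (ZMod 2) F := (G ψ).comap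
    ((LinearMap.inl (ZMod 2) (E × F) (Dual (ZMod 2) (E × F))).comp (LinearMap.inr (ZMod 2) E F))
  have hK : ∀ c ∈ K, ∀ z, ψ (z + (0, c)) = ψ z := by
    intro c hc
    obtain ⟨χ, hχ⟩ := mem_G.1 (Submodule.mem_comap.1 hc)
    simp only [LinearMap.coe_comp, Function.comp_apply, LinearMap.inl_apply, LinearMap.inr_apply,
      LinearMap.zero_apply, sg_zero, mul_one] at hχ
    have h1 : ∀ x, φ x = χ • φ x := by
      intro x
      have e1 : φ x = ∑ y, ψ (x, y + c) := by
        rw [hφ]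
        exact (Equiv.sum_comp (Equiv.addRight c) (fun y => ψ (x, y))).symm
      conv_lhs => rw [e1]
      rw [hφ]
      simp only
      rw [Finset.smul_sum]
      refine Finset.sum_congr rfl fun y _ => ?_
      have := hχ (x, y)
      simpa using this
    have hχ1 : χ = 1 := by
      obtain ⟨x, hx⟩ := Function.ne_iff.1 h0
      have h2 : (1 - χ) • φ x = 0 := by
        rw [sub_smul, one_smul, ← h1 x, sub_self]
      rcases smul_eq_zero.1 h2 with h3 | h3
      · exact (sub_eq_zero.1 h3).symm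
      · exact absurd h3 hx
    intro z
    rw [hχ z, hχ1, one_smul]
  obtain ⟨z0, hz0⟩ := Function.ne_iff.1 hψ0
  have hcomm : ∀ g ∈ G ψ, ∀ c ∈ K, g.2 (0, c) = 0 := by
    rintro ⟨a, β⟩ hg c hc
    obtain ⟨χ, hχ⟩ := mem_G.1 hg
    simp only at hχ ⊢
    have hχ0 : χ ≠ 0 := coef_ne hψ0 hχ
    have e1 := hχ (z0 + (0, c))
    rw [hK c hc, map_add, sg_add, show z0 + (0, c) + a = (z0 + a) + (0, c) by abel, hK c hc,
      hχ z0] at e1
    have e2 : (χ * sg (β z0) * (1 - sg (β (0, c)))) • ψ z0 = 0 := by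
      have : (χ * sg (β z0)) • ψ z0 - (χ * (sg (β z0) * sg (β (0, c)))) • ψ z0 = 0 := by
        rw [← e1, sub_self]
      rw [← sub_smul] at this
      convert this using 2; ring
    rcases smul_eq_zero.1 e2 with h3 | h3
    · rcases mul_eq_zero.1 h3 with h4 | h4
      · exact absurd h4 (mul_ne_zero hχ0 (sg_ne _))
      · exact sg_eq_one (sub_eq_zero.1 h4).symm
    · exact absurd h3 hz0
  -- restriction of the functional to the hidden part
  let ρ : G ψ →ₗ[ZMod 2] Dual (ZMod 2) F :=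
    (LinearMap.lcomp (ZMod 2) (ZMod 2) (LinearMap.inr (ZMod 2) E F)).comp
      ((LinearMap.snd (ZMod 2) (E × F) (Dual (ZMod 2) (E × F))).comp (G ψ).subtype)
  have hρ : ∀ g : G ψ, ∀ c, ρ g c = g.1.2 (0, c) := fun g c => rfl
  have hrange : LinearMap.range ρ ≤ K.dualAnnihilator := by
    rintro _ ⟨g, rfl⟩
    rw [Submodule.mem_dualAnnihilator]
    intro c hc
    rw [hρ]
    exact hcomm _ g.2 c hc
  have r1 : finrank (ZMod 2) (LinearMap.range ρ) ≤ finrank (ZMod 2) K.dualAnnihilator :=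
    Submodule.finrank_mono hrange
  have r2 := Subspace.finrank_add_finrank_dualAnnihilator_eq K
  have r3 := LinearMap.finrank_range_add_finrank_ker ρ
  -- projection to the symmetries of the sum
  let π0 : (G ψ) →ₗ[ZMod 2] E × Dual (ZMod 2) E :=
    (LinearMap.prodMap (LinearMap.fst (ZMod 2) E F)
      (LinearMap.lcomp (ZMod 2) (ZMod 2) (LinearMap.inl (ZMod 2) E F))).comp (G ψ).subtype
  have hπ1 : ∀ g : G ψ, (π0 g).1 = g.1.1.1 := fun g => rfl
  have hπ2 : ∀ g : G ψ, ∀ x, (π0 g).2 x = g.1.2 (x, 0) := fun g x => rfl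
  have hmem : ∀ g : LinearMap.ker ρ, π0 g.1 ∈ G φ := by
    rintro ⟨⟨⟨⟨a, a'⟩, β⟩, hg⟩, hk⟩
    obtain ⟨χ, hχ⟩ := mem_G.1 hg
    refine mem_G.2 ⟨χ, fun x => ?_⟩
    have hk' : ∀ c, β (0, c) = 0 := by
      intro c
      have := LinearMap.congr_fun (LinearMap.mem_ker.1 hk) c
      simpa [hρ] using this
    rw [hπ1, hπ2]
    simp only at hχ ⊢
    have e1 : φ (x + a) = ∑ y, ψ (x + a, y + a') := by
      rw [hφ]
      exact (Equiv.sum_comp (Equiv.addRight a') (fun y => ψ (x + a, y))).symm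
    rw [e1, hφ]
    simp only
    rw [Finset.smul_sum]
    refine Finset.sum_congr rfl fun y _ => ?_
    have e2 := hχ (x, y)
    rw [Prod.mk_add_mk] at e2
    rw [e2]
    have e3 : β (x, y) = β (x, 0) := by
      have : ((x, y) : E × F) = (x, 0) + (0, y) := by simp
      rw [this, map_add, hk', add_zero]
    rw [e3]
  let π : LinearMap.ker ρ →ₗ[ZMod 2] G φ :=
    (π0.comp (LinearMap.ker ρ).subtype).codRestrict (G φ) hmem
  have r4 := LinearMap.finrank_range_add_finrank_ker π
  have r5 : finrank (ZMod 2) (LinearMap.range π) ≤ finrank (ZMod 2) (G φ) :=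
    Submodule.finrank_le _
  have hker : ∀ k : LinearMap.ker π, k.1.1.1.1.2 ∈ K ∧ (k.1.1.1 = ((0, k.1.1.1.1.2), 0)) := by
    rintro ⟨⟨⟨⟨⟨a, a'⟩, β⟩, hg⟩, hk⟩, hk2⟩
    have hk' : ∀ c, β (0, c) = 0 := by
      intro c
      have := LinearMap.congr_fun (LinearMap.mem_ker.1 hk) c
      simpa [hρ] using this
    have hk3 := congrArg Subtype.val (LinearMap.mem_ker.1 hk2)
    have ha : a = 0 := congrArg Prod.fst hk3
    have hb : ∀ x, β (x, 0) = 0 := fun x => LinearMap.congr_fun (congrArg Prod.snd hk3) x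
    have hβ : β = 0 := by
      apply LinearMap.ext
      rintro ⟨x, y⟩
      have : ((x, y) : E × F) = (x, 0) + (0, y) := by simp
      rw [this, map_add, hk', hb]; simp
    subst ha hβ
    refine ⟨?_, rfl⟩
    exact hg
  let κ : LinearMap.ker π →ₗ[ZMod 2] K :=
    { toFun := fun k => ⟨k.1.1.1.1.2, (hker k).1⟩
      map_add' := fun k l => rfl
      map_smul' := fun s k => rfl }
  have hκ : Function.Injective κ := by
    intro k l hkl
    have h1 : k.1.1.1.1.2 = l.1.1.1.1.2 := congrArg Subtype.val hkl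
    apply Subtype.ext; apply Subtype.ext; apply Subtype.ext
    rw [(hker k).2, (hker l).2, h1]
  have r6 : finrank (ZMod 2) (LinearMap.ker π) ≤ finrank (ZMod 2) K :=
    LinearMap.finrank_le_finrank_of_injective hκ
  have r7 : finrank (ZMod 2) (E × F) = finrank (ZMod 2) E + finrank (ZMod 2) F :=
    Module.finrank_prod
  unfold Stb at h ⊢
  omega

end

section

variable {E : Type*} [AddCommGroup E] [Module (ZMod 2) E] [FiniteDimensional (ZMod 2) E]
variable {M : Type*} [AddCommGroup M] [Module ℂ M]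

/-- A function with a full set of Pauli symmetries takes its values on one line. -/
theorem stb_line {ψ : E → M} (h : Stb ψ) {x₀ : E} (hx₀ : ψ x₀ ≠ 0) (x : E) :
    ∃ c : ℂ, ψ x = c • ψ x₀ := by
  classical
  by_cases hx : ψ x = 0
  · exact ⟨0, by simp [hx]⟩
  have hψ0 : ψ ≠ 0 := by
    rintro rfl; exact hx₀ rfl
  let B : Submodule (ZMod 2) (Dual (ZMod 2) E) :=
    (G ψ).comap (LinearMap.inr (ZMod 2) E (Dual (ZMod 2) E))
  let fs : G ψ →ₗ[ZMod 2] E := (LinearMap.fst (ZMod 2) E (Dual (ZMod 2) E)).comp (G ψ).subtype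
  have hB : ∀ β ∈ B, ∀ y y', ψ y ≠ 0 → ψ y' ≠ 0 → β (y + y') = 0 := by
    intro β hβ y y' hy hy'
    obtain ⟨χ, hχ⟩ := mem_G.1 (Submodule.mem_comap.1 hβ)
    simp only [LinearMap.inr_apply, add_zero] at hχ
    have key : ∀ y, ψ y ≠ 0 → χ * sg (β y) = 1 := by
      intro y hy
      have e1 : (1 - χ * sg (β y)) • ψ y = 0 := by
        rw [sub_smul, one_smul, ← hχ y, sub_self]
      rcases smul_eq_zero.1 e1 with h3 | h3
      · exact (sub_eq_zero.1 h3).symm
      · exact absurd h3 hy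
    have e1 := key y hy
    have e2 := key y' hy'
    have hχ0 : χ ≠ 0 := by
      rintro rfl; simp at e1
    have e3 : sg (β y) = sg (β y') := mul_left_cancel₀ hχ0 (e1.trans e2.symm)
    rw [map_add, sg_inj e3]
    exact CharTwo.add_self_eq_zero _
  have hsupp : ∀ g ∈ G ψ, ∀ y, ψ y ≠ 0 → ψ (y + g.1) ≠ 0 := by
    rintro ⟨a, β⟩ hg y hy
    obtain ⟨χ, hχ⟩ := mem_G.1 hg
    simp only at hχ ⊢
    rw [hχ]
    exact smul_ne_zero (mul_ne_zero (coef_ne hψ0 hχ) (sg_ne _)) hy
  have hle : LinearMap.range fs ≤ B.dualCoannihilator := by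
    rintro _ ⟨g, rfl⟩
    rw [Submodule.mem_dualCoannihilator]
    intro β hβ
    have := hB β hβ x₀ (x₀ + g.1.1) hx₀ (hsupp _ g.2 _ hx₀)
    rwa [← add_assoc, add_self2, zero_add] at this
  have r1 := LinearMap.finrank_range_add_finrank_ker fs
  have r2 : finrank (ZMod 2) (LinearMap.ker fs) ≤ finrank (ZMod 2) B := by
    have hker : ∀ k : LinearMap.ker fs, k.1.1.2 ∈ B ∧ k.1.1 = (0, k.1.1.2) := by
      rintro ⟨⟨⟨a, β⟩, hg⟩, hk⟩
      have ha : a = 0 := LinearMap.mem_ker.1 hk
      subst ha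
      exact ⟨hg, rfl⟩
    let κ : LinearMap.ker fs →ₗ[ZMod 2] B :=
      { toFun := fun k => ⟨k.1.1.2, (hker k).1⟩
        map_add' := fun k l => rfl
        map_smul' := fun s k => rfl }
    have hκ : Function.Injective κ := by
      intro k l hkl
      have h1 : k.1.1.2 = l.1.1.2 := congrArg Subtype.val hkl
      apply Subtype.ext; apply Subtype.ext
      rw [(hker k).2, (hker l).2, h1]
    exact LinearMap.finrank_le_finrank_of_injective hκ
  have r3 : finrank (ZMod 2) B + finrank (ZMod 2) B.dualCoannihilator = finrank (ZMod 2) E := by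
    exact Subspace.finrank_add_finrank_dualCoannihilator_eq B
  have heq : LinearMap.range fs = B.dualCoannihilator := by
    apply Submodule.eq_of_le_of_finrank_le hle
    unfold Stb at h
    omega
  have hx' : x₀ + x ∈ B.dualCoannihilator := by
    rw [Submodule.mem_dualCoannihilator]
    intro β hβ
    exact hB β hβ _ _ hx₀ hx
  rw [← heq] at hx'
  obtain ⟨g, hg⟩ := hx'
  obtain ⟨χ, hχ⟩ := mem_G.1 g.2
  have hg' : g.1.1 = x₀ + x := hg
  refine ⟨χ * sg (g.1.2 x₀), ?_⟩
  rw [← hχ x₀, hg', ← add_assoc, add_self2, zero_add]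

end

section

variable {E : Type*} [AddCommGroup E] [Module (ZMod 2) E] [FiniteDimensional (ZMod 2) E]
variable {F : Type*} [AddCommGroup F] [Module (ZMod 2) F] [FiniteDimensional (ZMod 2) F]
variable {W : Type*} [AddCommGroup W] [Module (ZMod 2) W] [FiniteDimensional (ZMod 2) W]

/-- The phase-extended function used to pull back along an affine map. -/
noncomputable def Om (ψ : W → ℂ) (lam : Dual (ZMod 2) E) (Y : E →ₗ[ZMod 2] W) (y₀ : W) :
    E × (W × Dual (ZMod 2) W) → ℂ :=
  fun z => sg (lam z.1 + z.2.2 (z.2.1 + y₀ + Y z.1)) * ψ z.2.1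

theorem stb_Om {ψ : W → ℂ} (h : Stb ψ) (lam : Dual (ZMod 2) E) (Y : E →ₗ[ZMod 2] W) (y₀ : W) :
    Stb (Om ψ lam Y y₀) := by
  classical
  let ev : W →ₗ[ZMod 2] Dual (ZMod 2) (Dual (ZMod 2) W) := Dual.eval (ZMod 2) W
  -- the symmetries
  let f : E × (Dual (ZMod 2) W × G ψ) →ₗ[ZMod 2]
      (E × (W × Dual (ZMod 2) W)) × Dual (ZMod 2) (E × (W × Dual (ZMod 2) W)) :=
    { toFun := fun p => ((p.1, (p.2.2.1.1, p.2.1)),
        (ev (p.2.2.1.1 + Y p.1)).comp
            ((LinearMap.snd (ZMod 2) W (Dual (ZMod 2) W)).comp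
              (LinearMap.snd (ZMod 2) E (W × Dual (ZMod 2) W)))
          + (p.2.1 + p.2.2.1.2).comp
            ((LinearMap.fst (ZMod 2) W (Dual (ZMod 2) W)).comp
              (LinearMap.snd (ZMod 2) E (W × Dual (ZMod 2) W)))
          + (p.2.1.comp Y).comp (LinearMap.fst (ZMod 2) E (W × Dual (ZMod 2) W)))
      map_add' := by
        intro p q
        ext <;> simp <;> ring
      map_smul' := by
        intro s p
        ext <;> simp <;> ring }
  have hf : ∀ p, f p ∈ G (Om ψ lam Y y₀) := by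
    rintro ⟨s, w', ⟨⟨a, β⟩, hg⟩⟩
    obtain ⟨χ, hχ⟩ := mem_G.1 hg
    simp only at hχ
    refine mem_G.2 ⟨χ * sg (lam s + w' (a + y₀ + Y s)), ?_⟩
    rintro ⟨x, y, w⟩
    simp only [f, Om, LinearMap.coe_mk, AddHom.coe_mk, Prod.mk_add_mk, smul_eq_mul,
      LinearMap.add_apply, LinearMap.comp_apply, LinearMap.fst_apply, LinearMap.snd_apply,
      map_add, hχ, sg_add]
    simp only [ev, Dual.eval_apply]
    ring
  have hinj : Function.Injective f := by
    rw [injective_iff_map_eq_zero]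
    rintro ⟨s, w', ⟨⟨a, β⟩, hg⟩⟩ h0
    have h1 : s = 0 := congrArg (fun p => p.1.1) h0
    have h2 : a = 0 := congrArg (fun p => p.1.2.1) h0
    have h3 : w' = 0 := congrArg (fun p => p.1.2.2) h0
    subst h1 h2 h3
    have h4 : β = 0 := by
      ext y
      have := LinearMap.congr_fun (congrArg Prod.snd h0) (0, (y, 0))
      simpa [f] using this
    subst h4
    rfl
  let f' : E × (Dual (ZMod 2) W × G ψ) →ₗ[ZMod 2] G (Om ψ lam Y y₀) :=
    f.codRestrict _ hf
  have hinj' : Function.Injective f' := by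
    intro p q hpq
    exact hinj (congrArg Subtype.val hpq)
  have r1 := LinearMap.finrank_le_finrank_of_injective hinj'
  rw [Module.finrank_prod, Module.finrank_prod, Subspace.dual_finrank_eq] at r1
  unfold Stb at h ⊢
  rw [Module.finrank_prod, Module.finrank_prod, Subspace.dual_finrank_eq]
  omega

variable [Fintype F] [Fintype W]

omit [Fintype W] in
lemma sum_sg_dual [DecidableEq W] [Fintype (Dual (ZMod 2) W)] (y : W) :
    ∑ w : Dual (ZMod 2) W, sg (w y) = if y = 0 then (Fintype.card (Dual (ZMod 2) W) : ℂ) else 0 := by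
  classical
  split_ifs with h
  · subst h; simp [sg_zero]
  · obtain ⟨w₀, hw₀⟩ : ∃ w₀ : Dual (ZMod 2) W, w₀ y ≠ 0 := by
      by_contra hcon
      push Not at hcon
      exact h ((Module.forall_dual_apply_eq_zero_iff (ZMod 2) y).1 hcon)
    have hw1 : sg (w₀ y) = -1 := by
      rcases zm2 (w₀ y) with h1 | h1
      · exact absurd h1 hw₀
      · rw [h1, sg_one]
    have e1 : ∑ w : Dual (ZMod 2) W, sg (w y) = ∑ w : Dual (ZMod 2) W, sg ((w + w₀) y) :=
      (Equiv.sum_comp (Equiv.addRight w₀) (fun w : Dual (ZMod 2) W => sg (w y))).symm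
    have e2 : ∑ w : Dual (ZMod 2) W, sg ((w + w₀) y) = - ∑ w : Dual (ZMod 2) W, sg (w y) := by
      rw [← Finset.sum_neg_distrib]
      refine Finset.sum_congr rfl fun w _ => ?_
      rw [LinearMap.add_apply, sg_add, hw1]; ring
    rw [e2] at e1
    linear_combination (1 / 2 : ℂ) * e1

omit [FiniteDimensional (ZMod 2) E] in
lemma stb_smul {ψ : E → ℂ} {c : ℂ} (hc : c ≠ 0) (h : Stb (fun x => c * ψ x)) : Stb ψ := by
  have : G (fun x => c * ψ x) = G ψ := by
    ext g
    rw [mem_G, mem_G]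
    constructor
    · rintro ⟨χ, hχ⟩
      refine ⟨χ, fun x => ?_⟩
      have := hχ x
      simp only [smul_eq_mul] at this ⊢
      apply mul_left_cancel₀ hc
      rw [this]; ring
    · rintro ⟨χ, hχ⟩
      refine ⟨χ, fun x => ?_⟩
      have := hχ x
      simp only [smul_eq_mul] at this ⊢
      rw [this]; ring
  unfold Stb at h ⊢
  rwa [this] at h

/-- The class is preserved by the maps `ψ ↦ ∑_a (-1)^{λ(x,a)} ψ(y(x,a))`, `y` affine. -/
theorem stb_phi {ψ : W → ℂ} (h : Stb ψ) (lam : Dual (ZMod 2) (E × F)) (Y : E × F →ₗ[ZMod 2] W)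
    (y₀ : W) : Stb (fun x : E => ∑ a : F, sg (lam (x, a)) * ψ (y₀ + Y (x, a))) := by
  classical
  have : Fintype (Dual (ZMod 2) W) := by
    have : Finite (Dual (ZMod 2) W) := Module.finite_of_finite (ZMod 2)
    exact Fintype.ofFinite _
  have h1 : Stb (fun z : E × F => ∑ q : W × Dual (ZMod 2) W, Om ψ lam Y y₀ (z, q)) :=
    stb_sum (stb_Om h lam Y y₀)
  have e1 : ∀ z : E × F, ∑ q : W × Dual (ZMod 2) W, Om ψ lam Y y₀ (z, q)
      = (Fintype.card (Dual (ZMod 2) W) : ℂ) * (sg (lam z) * ψ (y₀ + Y z)) := by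
    intro z
    rw [Fintype.sum_prod_type]
    have e2 : ∀ y : W, ∑ w : Dual (ZMod 2) W, Om ψ lam Y y₀ (z, (y, w))
        = if y + y₀ + Y z = 0 then (Fintype.card (Dual (ZMod 2) W) : ℂ) * (sg (lam z) * ψ y)
          else 0 := by
      intro y
      have : ∀ w : Dual (ZMod 2) W, Om ψ lam Y y₀ (z, (y, w))
          = (sg (lam z) * ψ y) * sg (w (y + y₀ + Y z)) := by
        intro w
        simp only [Om, sg_add]
        ring
      simp only [this]
      rw [← Finset.mul_sum, sum_sg_dual]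
      split_ifs <;> ring
    simp only [e2]
    rw [Finset.sum_eq_single (y₀ + Y z)]
    · rw [if_pos]
      rw [add_assoc]; exact add_self2 _
    · intro y _ hy
      rw [if_neg]
      intro h0
      apply hy
      have h2 : y + (y₀ + Y z) + (y₀ + Y z) = y₀ + Y z := by
        rw [← add_assoc y, h0, zero_add]
      rwa [add_assoc, add_self2, add_zero] at h2
    · intro h0; exact absurd (Finset.mem_univ _) h0
  have h2 : Stb (fun z : E × F =>
      (Fintype.card (Dual (ZMod 2) W) : ℂ) * (sg (lam z) * ψ (y₀ + Y z))) := by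
    have : (fun z : E × F => ∑ q : W × Dual (ZMod 2) W, Om ψ lam Y y₀ (z, q)) =
      (fun z : E × F =>
        (Fintype.card (Dual (ZMod 2) W) : ℂ) * (sg (lam z) * ψ (y₀ + Y z))) := funext e1
    rwa [this] at h1
  have hc : (Fintype.card (Dual (ZMod 2) W) : ℂ) ≠ 0 := by
    exact_mod_cast Fintype.card_ne_zero
  exact stb_sum (ψ := fun z : E × F => sg (lam z) * ψ (y₀ + Y z)) (stb_smul hc h2)

end

end Run7.h327.Stab
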