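import Mathlib

/-!
# Stabilizer states and stabilizer rank: the definitions
-/

open Matrix

namespace Run7.h327.Stab

/-- Vectors of `(ℂ²)^{⊗d}` in the standard basis, which is indexed by `Fin d → Fin 2`. -/
abbrev Vec (d : ℕ) : Type := (Fin d → Fin 2) → ℂ

/-- Linear operators of `(ℂ²)^{⊗d}` in the standard basis. -/
abbrev Op (d : ℕ) : Type := Matrix (Fin d → Fin 2) (Fin d → Fin 2) ℂ

/-- The Pauli matrix `X`. -/
def PX : Matrix (Fin 2) (Fin 2) ℂ := !![0, 1; 1, 0]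

/-- The Pauli matrix `Y`. -/
noncomputable def PY : Matrix (Fin 2) (Fin 2) ℂ := !![0, -Complex.I; Complex.I, 0]

/-- The Pauli matrix `Z`. -/
def PZ : Matrix (Fin 2) (Fin 2) ℂ := !![1, 0; 0, -1]

/-- The group generated by `X`, `Y`, `Z` (each generator is its own inverse). -/
noncomputable def P1 : Submonoid (Matrix (Fin 2) (Fin 2) ℂ) := Submonoid.closure {PX, PY, PZ}

/-- The tensor product `p 0 ⊗ ⋯ ⊗ p (d - 1)`. -/
def tens {d : ℕ} (p : Fin d → Matrix (Fin 2) (Fin 2) ℂ) : Op d :=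
  Matrix.of fun x y => ∏ j, p j (x j) (y j)

/-- The Pauli group on `d` qubits. -/
def pauli (d : ℕ) : Set (Op d) := {M | ∃ p : Fin d → Matrix (Fin 2) (Fin 2) ℂ,
  (∀ j, p j ∈ P1) ∧ M = tens p}

/-- A unitary operator is Clifford if conjugation by it maps the Pauli group onto itself. -/
def IsClifford {d : ℕ} (U : Op d) : Prop :=
  U ∈ Matrix.unitaryGroup (Fin d → Fin 2) ℂ ∧
    ∀ M : Op d, M ∈ pauli d ↔ U * M * star U ∈ pauli d

/-- The stabilizer states: the images of `e₀^{⊗d}` under Clifford operators. -/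
def stab (d : ℕ) : Set (Vec d) := {ψ | ∃ U : Op d, IsClifford U ∧ ψ = U *ᵥ Pi.single 0 1}

/-- The stabilizer rank. -/
noncomputable def stabRank {d : ℕ} (T : Vec d) : ℕ :=
  sInf {r | ∃ (α : Fin r → ℂ) (s : Fin r → Vec d), (∀ i, s i ∈ stab d) ∧ T = ∑ i, α i • s i}

/-- The tensor power `v^{⊗d}`. -/
def tpow (v : Fin 2 → ℂ) (d : ℕ) : Vec d := fun x => ∏ j, v (x j)

end Run7.h327.Stab
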