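import Pool.Agent.Run7.h327.Stab.Circuit

/-!
# The lower bound for the stabilizer rank of `(e₀ + √2 e₁)^{⊗d}`
-/

open Module

namespace Run7.h327.Stab

variable {m : ℕ}

open Classical in
/-- Constant part of the affine embedding. -/
noncomputable def y0 {d : ℕ} (A : Finset (Fin m) → Finset (Fin m) → ZMod 2)
    (e : J m × (Fin 4 × Fin 2) → Fin d) : Fin d → ZMod 2 :=
  fun i => if h : ∃ k, e k = i then (cor A h.choose).1 else 0

open Classical in
/-- Linear part of the affine embedding. -/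
noncomputable def Yl {d : ℕ} (A : Finset (Fin m) → Finset (Fin m) → ZMod 2)
    (e : J m × (Fin 4 × Fin 2) → Fin d) : EE m × FF m →ₗ[ZMod 2] (Fin d → ZMod 2) :=
  LinearMap.pi fun i => if h : ∃ k, e k = i then (cor A h.choose).2 else 0

lemma coord_in {d : ℕ} (A : Finset (Fin m) → Finset (Fin m) → ZMod 2)
    {e : J m × (Fin 4 × Fin 2) → Fin d} (he : Function.Injective e) (z : EE m × FF m)
    (k : J m × (Fin 4 × Fin 2)) : (y0 A e + Yl A e z) (e k) = ev (cor A k) z := by
  have h : ∃ k', e k' = e k := ⟨k, rfl⟩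
  have hk : h.choose = k := he h.choose_spec
  rw [Pi.add_apply]
  simp only [y0, Yl, LinearMap.pi_apply]
  rw [dif_pos h, dif_pos h, hk]
  rfl

lemma coord_out {d : ℕ} (A : Finset (Fin m) → Finset (Fin m) → ZMod 2)
    {e : J m × (Fin 4 × Fin 2) → Fin d} (z : EE m × FF m)
    (i : Fin d) (hi : i ∉ Set.range e) : (y0 A e + Yl A e z) i = 0 := by
  have h : ¬ ∃ k', e k' = i := hi
  rw [Pi.add_apply]
  simp only [y0, Yl, LinearMap.pi_apply]
  rw [dif_neg h, dif_neg h]
  simp

/-- The state `(e₀ + √2 e₁)^{⊗d}`. -/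
noncomputable abbrev TT (d : ℕ) : Vec d := tpow ![1, (Real.sqrt 2 : ℂ)] d

lemma TT_apply {d : ℕ} (x : Fin d → ZMod 2) : TT d x = ∏ i, wt (x i) := by
  show (∏ i, (![1, (Real.sqrt 2 : ℂ)] : Fin 2 → ℂ) (x i)) = _
  refine Finset.prod_congr rfl fun i _ => ?_
  have key : ∀ z : ZMod 2, (![1, (Real.sqrt 2 : ℂ)] : Fin 2 → ℂ) z = wt z := by
    intro z
    rcases zm2 z with rfl | rfl
    · show (![1, (Real.sqrt 2 : ℂ)] : Fin 2 → ℂ) 0 = _; simp [wt]
    · show (![1, (Real.sqrt 2 : ℂ)] : Fin 2 → ℂ) 1 = _; simp [wt]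
  exact key _

lemma phi_TT {d : ℕ} (A : Finset (Fin m) → Finset (Fin m) → ZMod 2)
    {e : J m × (Fin 4 × Fin 2) → Fin d} (he : Function.Injective e) (x : EE m) :
    ∑ a : FF m, sg (lamA (x, a)) * TT d (y0 A e + Yl A e (x, a))
      = 2 ^ Fintype.card (J m) * ((chi A x : ℤ) : ℂ) := by
  classical
  unfold chi
  push_cast
  rw [Finset.mul_sum]
  refine Finset.sum_congr rfl fun a _ => ?_
  rw [TT_apply]
  have h1 : ∏ i, wt ((y0 A e + Yl A e (x, a)) i)
      = ∏ k : J m × (Fin 4 × Fin 2), wt (ev (cor A k) (x, a)) := by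
    symm
    apply Fintype.prod_of_injective e he
    · intro i hi
      rw [coord_out A _ i hi]; simp [wt]
    · intro k
      rw [coord_in A he]
  rw [h1, prod_cor, sgZ_cast]
  push_cast
  ring

/-- The code of a function: its symmetry data, if it is a nonzero stabilizer function. -/
noncomputable def code {E : Type*} [AddCommGroup E] [Module (ZMod 2) E]
    [FiniteDimensional (ZMod 2) E] (ψ : E → ℂ) : Option (Dat E) := by
  classical
  exact if h : Stb ψ ∧ ψ ≠ 0 then some (exists_dat h.1 h.2).choose else none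

lemma code_eq {E : Type*} [AddCommGroup E] [Module (ZMod 2) E] [FiniteDimensional (ZMod 2) E]
    {ψ φ : E → ℂ} (hψ : Stb ψ) (hφ : Stb φ) (h : code ψ = code φ) : ∃ c : ℂ, φ = c • ψ := by
  classical
  unfold code at h
  by_cases h1 : ψ = 0
  · subst h1
    by_cases h2 : φ = 0
    · subst h2; exact ⟨0, by simp⟩
    · rw [dif_neg (by simp), dif_pos ⟨hφ, h2⟩] at h
      exact absurd h (by simp)
  · by_cases h2 : φ = 0
    · subst h2; exact ⟨0, by simp⟩
    · rw [dif_pos ⟨hψ, h1⟩, dif_pos ⟨hφ, h2⟩] at h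
      have h3 := Option.some_injective _ h
      have e1 := (exists_dat hψ h1).choose_spec
      have e2 := (exists_dat hφ h2).choose_spec
      rw [← h3] at e2
      exact rel_unique e1 e2 h1

theorem rank_bound (m d : ℕ) (hd : 24 * 2 ^ m ≤ d) :
    4 ^ m ≤ stabRank (TT d) * (8 * m ^ 2 + 4 * m + 3) := by
  classical
  have : Finite (Dual (ZMod 2) (EE m)) := Module.finite_of_finite (ZMod 2)
  have : Fintype (Dual (ZMod 2) (EE m)) := Fintype.ofFinite _
  have hdec := exists_decomp (TT d)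
  generalize stabRank (TT d) = R at hdec ⊢
  obtain ⟨α, s, hs, hT⟩ := hdec
  -- the embedding of the coordinates
  obtain ⟨e⟩ : Nonempty ((J m × (Fin 4 × Fin 2)) ↪ Fin d) := by
    apply Function.Embedding.nonempty_of_card_le
    simp only [Fintype.card_prod, Fintype.card_sum, Fintype.card_finset, Fintype.card_fin]
    omega
  -- the images of the terms of the decomposition
  let ψ : (Finset (Fin m) → Finset (Fin m) → ZMod 2) → Fin R → (EE m → ℂ) := fun A i x =>
    ∑ a : FF m, sg (lamA (x, a)) * s i (y0 A e + Yl A e (x, a))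
  have hψ : ∀ A i, Stb (ψ A i) := fun A i =>
    stb_phi (E := EE m) (F := FF m) (W := Fin d → ZMod 2) (stb_of_stab (hs i)) lamA (Yl A e)
      (y0 A e)
  have hsum : ∀ A x, 2 ^ Fintype.card (J m) * ((chi A x : ℤ) : ℂ) = ∑ i, α i * ψ A i x := by
    intro A x
    rw [← phi_TT A e.injective x, hT]
    simp only [ψ, Finset.mul_sum]
    rw [Finset.sum_comm]
    refine Finset.sum_congr rfl fun a _ => ?_
    have e1 : (∑ i, α i • s i) (y0 A e + Yl A e (x, a))
        = ∑ i, α i * s i (y0 A e + Yl A e (x, a)) := by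
      have key : ∀ z : Fin d → Fin 2, (∑ i, α i • s i) z = ∑ i, α i * s i z := by
        intro z
        rw [Finset.sum_apply]; rfl
      exact key _
    rw [e1, Finset.mul_sum]
    refine Finset.sum_congr rfl fun i _ => ?_
    ring
  have h2 : (2 : ℂ) ^ Fintype.card (J m) ≠ 0 := pow_ne_zero _ two_ne_zero
  -- the code of a matrix
  let Θ : (Finset (Fin m) → Finset (Fin m) → ZMod 2) → (Fin R → Option (Dat (EE m))) :=
    fun A i => code (ψ A i)
  have hfib : ∀ A₀, (Finset.univ.filter fun A => Θ A = Θ A₀).card ≤ 4 ^ R := by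
    intro A₀
    let W : Submodule ℂ (EE m → ℂ) := Submodule.span ℂ (Set.range (ψ A₀))
    have hW : finrank ℂ W ≤ R := by
      have := finrank_range_le_card (R := ℂ) (ψ A₀)
      rwa [Fintype.card_fin] at this
    have hmem : ∀ A, Θ A = Θ A₀ → (fun x => ((chi A x : ℤ) : ℂ)) ∈ W := by
      intro A hA
      have h3 : ∀ i, ψ A i ∈ W := by
        intro i
        obtain ⟨c, hc⟩ := code_eq (hψ A₀ i) (hψ A i) (congrFun hA i).symm
        rw [hc]
        exact W.smul_mem c (Submodule.subset_span ⟨i, rfl⟩)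
      have h4 : (fun x => ((chi A x : ℤ) : ℂ))
          = ∑ i, ((2 : ℂ) ^ Fintype.card (J m))⁻¹ • (α i • ψ A i) := by
        funext x
        rw [Finset.sum_apply]
        simp only [Pi.smul_apply, smul_eq_mul]
        rw [← Finset.mul_sum, ← hsum A x, ← mul_assoc, inv_mul_cancel₀ h2, one_mul]
      rw [h4]
      exact Submodule.sum_mem _ fun i _ => W.smul_mem _ (W.smul_mem _ (h3 i))
    have h5 := card_mod_four (X := EE m) (A := {A // Θ A = Θ A₀}) W R hW
      (fun A => chi A.1) (fun A => hmem A.1 A.2) (by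
        intro A B hAB
        apply Subtype.ext
        apply fA_inj
        intro x
        apply sgZ_inj4
        rw [← chi_mod, ← chi_mod]
        exact (ZMod.intCast_eq_intCast_iff _ _ 4).2 (hAB x))
    rwa [Fintype.card_subtype] at h5
  have h6 := Finset.card_le_mul_card_image (s := Finset.univ) (f := Θ) (4 ^ R) (by
    intro θ hθ
    obtain ⟨A₀, _, rfl⟩ := Finset.mem_image.1 hθ
    exact hfib A₀)
  have h7 : (Finset.univ.image Θ).card ≤ Fintype.card (Fin R → Option (Dat (EE m))) :=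
    Finset.card_le_univ _
  have hE : Fintype.card (EE m) = 2 ^ (2 * m) := by
    rw [Fintype.card_prod, Fintype.card_fun, ZMod.card, Fintype.card_fin]
    ring
  have hfr : finrank (ZMod 2) (EE m) = 2 * m := by
    rw [Module.finrank_prod, Module.finrank_fin_fun]; ring
  have hD : Fintype.card (Dual (ZMod 2) (EE m)) = 2 ^ (2 * m) := by
    rw [Module.card_eq_pow_finrank (K := ZMod 2), ZMod.card, Subspace.dual_finrank_eq, hfr]
  have hdat : Fintype.card (Dat (EE m)) = 2 ^ ((4 * m + 2) * (2 * m)) := by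
    have h4 : 2 ^ (2 * m) * 2 ^ (2 * m) * 4 = 2 ^ (4 * m + 2) := by
      rw [show (4 : ℕ) = 2 ^ 2 by norm_num, ← pow_add, ← pow_add]
      congr 1; ring
    rw [Fintype.card_fun, Fintype.card_prod, Fintype.card_prod, hE, hD, Fintype.card_fin,
      Fintype.card_fin, hfr, h4, ← pow_mul]
  have h8 : Fintype.card (Fin R → Option (Dat (EE m))) ≤ 2 ^ (((4 * m + 2) * (2 * m) + 1) * R) := by
    rw [Fintype.card_fun, Fintype.card_option, Fintype.card_fin, hdat,
      pow_mul 2 ((4 * m + 2) * (2 * m) + 1) R]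
    apply Nat.pow_le_pow_left
    rw [pow_succ]
    have : 1 ≤ 2 ^ ((4 * m + 2) * (2 * m)) := Nat.one_le_two_pow
    omega
  have h9 : (Finset.univ : Finset (Finset (Fin m) → Finset (Fin m) → ZMod 2)).card
      = 2 ^ (4 ^ m) := by
    rw [Finset.card_univ]
    simp only [Fintype.card_fun, ZMod.card, Fintype.card_finset, Fintype.card_fin]
    rw [← pow_mul]
    congr 1
    rw [show (4 : ℕ) = 2 * 2 by norm_num, mul_pow]
  have h10 : 2 ^ (4 ^ m) ≤ 2 ^ (R * (8 * m ^ 2 + 4 * m + 3)) := by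
    rw [← h9]
    refine h6.trans ?_
    calc 4 ^ R * (Finset.univ.image Θ).card
        ≤ 4 ^ R * 2 ^ (((4 * m + 2) * (2 * m) + 1) * R) :=
          Nat.mul_le_mul_left _ (h7.trans h8)
      _ = 2 ^ (R * (8 * m ^ 2 + 4 * m + 3)) := by
          rw [show (4 : ℕ) = 2 ^ 2 by norm_num, ← pow_mul, ← pow_add]
          congr 1; ring
  exact (Nat.pow_le_pow_iff_right (by norm_num)).1 h10

end Run7.h327.Stab
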